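import Pool.Agent.Helper61.TW.Defs

/-!
# Antiparallel twist regions: the slide of the smoothed crossing

Two consecutive crossings `(u, v)`, `(u', v')` of a twist region with antiparallel strands: `u' = nxt u`, `v = nxt v'`. If the
first one is smoothed, the travel is `u → nxt v`, `v' → v → u' → nxt u'`; if the second one is smoothed, it is
`u → u' → v → nxt v`, `v' → nxt u'`. Only the place of the pair `v, u'` changes.
-/

set_option autoImplicit false

namespace Pool.Agent.Helper30.TW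

open Pool.Agent.Helper85.Exp Pool.Agent.Helper61.TW Relation

variable {P : Type}

/-- one step which does not start in `A` -/
def St (f : P → P) (A : P → Prop) (x y : P) : Prop := ¬ A x ∧ f x = y

theorem rtg_iff (f : P → P) (A : P → Prop) (b j : P) :
    ReflTransGen (St f A) b j ↔ ∃ k : ℕ, f^[k] b = j ∧ ∀ l < k, ¬ A (f^[l] b) := by
  constructor
  · intro h
    induction h with
    | refl => exact ⟨0, rfl, fun l hl => absurd hl (Nat.not_lt_zero l)⟩
    | @tail x y _ hs ih =>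
      obtain ⟨k, h1, h2⟩ := ih
      refine ⟨k + 1, by rw [Function.iterate_succ_apply', h1, hs.2], fun l hl => ?_⟩
      rcases Nat.lt_succ_iff_lt_or_eq.1 hl with h3 | h3
      · exact h2 l h3
      · rw [h3, h1]
        exact hs.1
  · rintro ⟨k, rfl, h⟩
    induction k with
    | zero => exact ReflTransGen.refl
    | succ k ih =>
      refine ReflTransGen.tail (ih fun l hl => h l (by omega)) ⟨h k (by omega), ?_⟩
      rw [Function.iterate_succ_apply']

/-- the data of the two travelling maps -/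
structure Sl (f f' : P → P) (u v u' v' y z : P) : Prop where
  uv : u ≠ v
  uu : u ≠ u'
  uw : u ≠ v'
  vu : v ≠ u'
  vv : v ≠ v'
  uv' : u' ≠ v'
  yv : y ≠ v
  yu : y ≠ u'
  zv : z ≠ v
  zu : z ≠ u'
  f1 : f v' = v
  f2 : f v = u'
  f3 : f u' = z
  f4 : f u = y
  g1 : f' u = u'
  g2 : f' u' = v
  g3 : f' v = y
  g4 : f' v' = z
  out : ∀ x, x ≠ u → x ≠ v → x ≠ u' → x ≠ v' → f x = f' x ∧ f x ≠ v ∧ f x ≠ u'

theorem Sl.symm {f f' : P → P} {u v u' v' y z : P} (h : Sl f f' u v u' v' y z) : Sl f' f v' u' v u z y where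
  uv := h.uv'.symm
  uu := h.vv.symm
  uw := h.uw.symm
  vu := h.vu.symm
  vv := h.uu.symm
  uv' := h.uv.symm
  yv := h.zu
  yu := h.zv
  zv := h.yu
  zu := h.yv
  f1 := h.g1
  f2 := h.g2
  f3 := h.g3
  f4 := h.g4
  g1 := h.f1
  g2 := h.f2
  g3 := h.f3
  g4 := h.f4
  out := fun x h1 h2 h3 h4 => by
    obtain ⟨a, b, c⟩ := h.out x h4 h3 h2 h1
    exact ⟨a.symm, by rw [← a]; exact c, by rw [← a]; exact b⟩

theorem Sl.rtg {f f' : P → P} {u v u' v' y z : P} (h : Sl f f' u v u' v' y z) {A : P → Prop} (hv : ¬ A v)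
    (hu : ¬ A u') {b j : P} (hb1 : b ≠ v) (hb2 : b ≠ u') (hj1 : j ≠ v) (hj2 : j ≠ u')
    (hr : ReflTransGen (St f A) b j) : ReflTransGen (St f' A) b j := by
  have key : ∀ x, ReflTransGen (St f A) b x → ((x ≠ v → x ≠ u' → ReflTransGen (St f' A) b x) ∧
      (x = v ∨ x = u' → ¬ A v' ∧ ReflTransGen (St f' A) b v')) := by
    intro x hx
    induction hx with
    | refl => exact ⟨fun _ _ => ReflTransGen.refl, fun h1 => (h1.elim hb1 hb2).elim⟩
    | @tail x w _ hs ih =>
      obtain ⟨hs1, rfl⟩ := hs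
      by_cases e1 : x = u
      · subst e1
        have h1 := ih.1 h.uv h.uu
        rw [h.f4]
        refine ⟨fun _ _ => ?_, fun h2 => (h2.elim h.yv h.yu).elim⟩
        exact ((h1.tail ⟨hs1, h.g1⟩).tail ⟨hu, h.g2⟩).tail ⟨hv, h.g3⟩
      by_cases e2 : x = v
      · subst e2
        rw [h.f2]
        exact ⟨fun _ h2 => absurd rfl h2, fun _ => ih.2 (Or.inl rfl)⟩
      by_cases e3 : x = u'
      · subst e3
        rw [h.f3]
        obtain ⟨h1, h2⟩ := ih.2 (Or.inr rfl)
        exact ⟨fun _ _ => h2.tail ⟨h1, h.g4⟩, fun h3 => (h3.elim h.zv h.zu).elim⟩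
      by_cases e4 : x = v'
      · subst e4
        rw [h.f1]
        exact ⟨fun h1 _ => absurd rfl h1, fun _ => ⟨hs1, ih.1 h.vv.symm h.uv'.symm⟩⟩
      obtain ⟨o1, o2, o3⟩ := h.out x e1 e2 e3 e4
      exact ⟨fun _ _ => (ih.1 e2 e3).tail ⟨hs1, o1.symm⟩, fun h1 => (h1.elim o2 o3).elim⟩
  exact (key j hr).1 hj1 hj2

theorem Sl.rtg_iff {f f' : P → P} {u v u' v' y z : P} (h : Sl f f' u v u' v' y z) {A : P → Prop} (hv : ¬ A v)
    (hu : ¬ A u') {b j : P} (hb1 : b ≠ v) (hb2 : b ≠ u') (hj1 : j ≠ v) (hj2 : j ≠ u') :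
    ReflTransGen (St f A) b j ↔ ReflTransGen (St f' A) b j :=
  ⟨h.rtg hv hu hb1 hb2 hj1 hj2, h.symm.rtg hu hv hb2 hb1 hj2 hj1⟩

/-- met before, for a map -/
def Be (f : P → P) (b i j : P) : Prop := ∀ k : ℕ, f^[k] b = j → ∃ l < k, f^[l] b = i

theorem be_iff (f : P → P) (b i j : P) : Be f b i j ↔ ¬ ReflTransGen (St f fun x => x = i) b j := by
  rw [Pool.Agent.Helper30.TW.rtg_iff]
  unfold Be
  push Not
  exact Iff.rfl

theorem Sl.be {f f' : P → P} {u v u' v' y z : P} (h : Sl f f' u v u' v' y z) {b i j : P} (hb1 : b ≠ v) (hb2 : b ≠ u')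
    (hi1 : i ≠ v) (hi2 : i ≠ u') (hj1 : j ≠ v) (hj2 : j ≠ u') : Be f b i j ↔ Be f' b i j := by
  rw [be_iff, be_iff, h.rtg_iff (A := fun x => x = i) (fun e => hi1 e.symm) (fun e => hi2 e.symm) hb1 hb2 hj1 hj2]

theorem Sl.src {f f' : P → P} {u v u' v' y z : P} (h : Sl f f' u v u' v' y z) {x : P} (hx : f x = v) : x = v' := by
  by_contra e4
  by_cases e1 : x = u
  · subst e1
    exact h.yv (h.f4.symm.trans hx)
  by_cases e2 : x = v
  · subst e2
    exact h.vu (hx.symm.trans h.f2)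
  by_cases e3 : x = u'
  · subst e3
    exact h.zv (h.f3.symm.trans hx)
  exact (h.out x e1 e2 e3 e4).2.1 hx

/-- `v` comes just after `v'` -/
theorem Sl.be_v {f f' : P → P} {u v u' v' y z : P} (h : Sl f f' u v u' v' y z) {b i : P} (hb1 : b ≠ v) (hi : i ≠ v') :
    Be f b i v ↔ Be f b i v' := by
  constructor
  · intro H k hk
    obtain ⟨l, hl, h1⟩ := H (k + 1) (by rw [Function.iterate_succ_apply', hk, h.f1])
    rcases Nat.lt_succ_iff_lt_or_eq.1 hl with h2 | h2
    · exact ⟨l, h2, h1⟩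
    · rw [h2, hk] at h1
      exact absurd h1.symm hi
  · intro H k hk
    cases k with
    | zero => exact absurd hk hb1
    | succ m =>
      rw [Function.iterate_succ_apply'] at hk
      obtain ⟨l, hl, h1⟩ := H m (h.src hk)
      exact ⟨l, by omega, h1⟩

theorem Sl.v_be {f f' : P → P} {u v u' v' y z : P} (h : Sl f f' u v u' v' y z) {b j : P} (hb1 : b ≠ v) (hj : j ≠ v) :
    Be f b v j ↔ Be f b v' j := by
  constructor
  · intro H k hk
    obtain ⟨l, hl, h1⟩ := H k hk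
    cases l with
    | zero => exact absurd h1 hb1
    | succ m =>
      rw [Function.iterate_succ_apply'] at h1
      exact ⟨m, by omega, h.src h1⟩
  · intro H k hk
    obtain ⟨l, hl, h1⟩ := H k hk
    have h2 : f^[l + 1] b = v := by rw [Function.iterate_succ_apply', h1, h.f1]
    refine ⟨l + 1, ?_, h2⟩
    rcases Nat.lt_or_eq_of_le (Nat.succ_le_of_lt hl) with h3 | h3
    · exact h3
    · exfalso
      rw [← h3] at hk
      exact hj (hk.symm.trans h2)

theorem Sl.sg {f f' : P → P} {u v u' v' y z : P} (h : Sl f f' u v u' v' y z) {b : P} (hb1 : b ≠ v) (hb2 : b ≠ u')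
    (H : ∀ i, ∃ k : ℕ, f^[k] b = i) : ∀ i, ∃ k : ℕ, f'^[k] b = i := by
  have h1 : ∀ i, i ≠ v → i ≠ u' → ∃ k : ℕ, f'^[k] b = i := fun i hi1 hi2 => by
    have h2 : ReflTransGen (St f fun _ => False) b i := by
      rw [Pool.Agent.Helper30.TW.rtg_iff]
      obtain ⟨k, hk⟩ := H i
      exact ⟨k, hk, fun _ _ => not_false⟩
    rw [h.rtg_iff (A := fun _ => False) not_false not_false hb1 hb2 hi1 hi2, Pool.Agent.Helper30.TW.rtg_iff] at h2
    obtain ⟨k, hk, -⟩ := h2
    exact ⟨k, hk⟩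
  intro i
  obtain ⟨k, hk⟩ := h1 u h.uv h.uu
  by_cases e1 : i = u'
  · exact ⟨k + 1, by rw [Function.iterate_succ_apply', hk, h.g1, e1]⟩
  by_cases e2 : i = v
  · exact ⟨k + 2, by rw [Function.iterate_succ_apply', Function.iterate_succ_apply', hk, h.g1, h.g2, e2]⟩
  exact h1 i e2 e1

theorem trS_in {G : Sh P} {S : Finset P} {i : P} (h : i ∈ S ∨ G.op i ∈ S) : trS G S i = G.nxt (G.op i) := by
  unfold trS
  rw [if_pos h]

theorem trS_out {G : Sh P} {S : Finset P} {i : P} (h1 : i ∉ S) (h2 : G.op i ∉ S) : trS G S i = G.nxt i := by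
  unfold trS
  rw [if_neg (not_or.2 ⟨h1, h2⟩)]

open Classical in
theorem sl_of (G : Sh P) (ho : ∀ i, G.op i ≠ i) {u u' v v' : P} (hu : G.nxt u = u') (hv : v = G.op u)
    (hv' : v' = G.op u') (hn : G.nxt v' = v) (h1 : u ≠ u') (h2 : u ≠ v') (h3 : v ≠ u') (h4 : v ≠ v') {T : Finset P}
    (tu : u ∉ T) (tv : v ∉ T) (tu' : u' ∉ T) (tv' : v' ∉ T) {w w' : P} (hw : w = u ∨ w = v) (hw' : w' = u' ∨ w' = v') :
    Sl (trS G (insert w T)) (trS G (insert w' T)) u v u' v' (G.nxt v) (G.nxt u') := by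
  have ov : G.op v = u := by rw [hv, G.op_op]
  have ov' : G.op v' = u' := by rw [hv', G.op_op]
  have huv : u ≠ v := fun e => ho u (by rw [← hv, ← e])
  have huv' : u' ≠ v' := fun e => ho u' (by rw [← hv', ← e])
  have nu' : u' ∉ insert w T := fun h => by
    rcases Finset.mem_insert.1 h with h | h
    · rcases hw with rfl | rfl
      · exact h1 h.symm
      · exact h3 h.symm
    · exact tu' h
  have nv' : v' ∉ insert w T := fun h => by
    rcases Finset.mem_insert.1 h with h | h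
    · rcases hw with rfl | rfl
      · exact h2 h.symm
      · exact h4 h.symm
    · exact tv' h
  have nu : u ∉ insert w' T := fun h => by
    rcases Finset.mem_insert.1 h with h | h
    · rcases hw' with rfl | rfl
      · exact h1 h
      · exact h2 h
    · exact tu h
  have nv : v ∉ insert w' T := fun h => by
    rcases Finset.mem_insert.1 h with h | h
    · rcases hw' with rfl | rfl
      · exact h3 h
      · exact h4 h
    · exact tv h
  have iu : u ∈ insert w T ∨ G.op u ∈ insert w T := by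
    rcases hw with rfl | rfl
    · exact Or.inl (Finset.mem_insert_self _ _)
    · rw [← hv]
      exact Or.inr (Finset.mem_insert_self _ _)
  have iv : v ∈ insert w T ∨ G.op v ∈ insert w T := by
    rw [ov]
    rw [← hv] at iu
    exact iu.symm
  have iu' : u' ∈ insert w' T ∨ G.op u' ∈ insert w' T := by
    rcases hw' with rfl | rfl
    · exact Or.inl (Finset.mem_insert_self _ _)
    · rw [← hv']
      exact Or.inr (Finset.mem_insert_self _ _)
  have iv' : v' ∈ insert w' T ∨ G.op v' ∈ insert w' T := by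
    rw [ov']
    rw [← hv'] at iu'
    exact iu'.symm
  refine ⟨huv, h1, h2, h3, h4, huv', ?_, ?_, ?_, ?_, ?_, ?_, ?_, ?_, ?_, ?_, ?_, ?_, ?_⟩
  · intro e
    exact h4 (G.nxt.injective (e.trans hn.symm))
  · intro e
    exact huv (G.nxt.injective (hu.trans e.symm))
  · intro e
    exact huv' (G.nxt.injective (e.trans hn.symm))
  · intro e
    exact h1 (G.nxt.injective (hu.trans e.symm))
  · rw [trS_out nv' (by rw [ov']; exact nu'), hn]
  · rw [trS_in iv, ov, hu]
  · rw [trS_out nu' (by rw [← hv']; exact nv')]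
  · rw [trS_in iu, ← hv]
  · rw [trS_out nu (by rw [← hv]; exact nv), hu]
  · rw [trS_in iu', ← hv', hn]
  · rw [trS_out nv (by rw [ov]; exact nu)]
  · rw [trS_in iv', ov']
  · intro x x1 x2 x3 x4
    have o1 : G.op x ≠ u := fun e => x2 (by rw [hv, ← e, G.op_op])
    have o2 : G.op x ≠ v := fun e => x1 (by rw [← ov, ← e, G.op_op])
    have o3 : G.op x ≠ u' := fun e => x4 (by rw [hv', ← e, G.op_op])
    have o4 : G.op x ≠ v' := fun e => x3 (by rw [← ov', ← e, G.op_op])
    have key : ∀ s, s ≠ u → s ≠ v' → G.nxt s ≠ v ∧ G.nxt s ≠ u' := fun s s1 s2 =>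
      ⟨fun e => s2 (G.nxt.injective (e.trans hn.symm)), fun e => s1 (G.nxt.injective (e.trans hu.symm))⟩
    have mem : ∀ s, s ≠ u → s ≠ v → s ≠ u' → s ≠ v' → (s ∈ insert w T ↔ s ∈ T) ∧ (s ∈ insert w' T ↔ s ∈ T) := by
      intro s s1 s2 s3 s4
      rw [Finset.mem_insert, Finset.mem_insert]
      have a1 : s ≠ w := by
        rcases hw with rfl | rfl
        · exact s1
        · exact s2
      have a2 : s ≠ w' := by
        rcases hw' with rfl | rfl
        · exact s3
        · exact s4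
      simp [a1, a2]
    have m1 := mem x x1 x2 x3 x4
    have m2 := mem (G.op x) o1 o2 o3 o4
    by_cases hx : x ∈ T ∨ G.op x ∈ T
    · rw [trS_in (by rw [m1.1, m2.1]; exact hx), trS_in (by rw [m1.2, m2.2]; exact hx)]
      exact ⟨rfl, key _ o1 o4⟩
    · rw [not_or] at hx
      rw [trS_out (by rw [m1.1]; exact hx.1) (by rw [m2.1]; exact hx.2),
        trS_out (by rw [m1.2]; exact hx.1) (by rw [m2.2]; exact hx.2)]
      exact ⟨rfl, key _ x1 x4⟩

open Classical in
/-- **The slide.** -/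
theorem slide (G : Sh P) (ho : ∀ i, G.op i ≠ i) {u u' v v' b : P} (hu : G.nxt u = u') (hv : v = G.op u)
    (hv' : v' = G.op u') (hn : G.nxt v' = v) (h1 : u ≠ u') (h2 : u ≠ v') (h3 : v ≠ u') (h4 : v ≠ v') {T : Finset P}
    (tu : u ∉ T) (tv : v ∉ T) (tu' : u' ∉ T) (tv' : v' ∉ T) (hb1 : b ≠ v) (hb2 : b ≠ u') {w w' : P}
    (hw : w = u ∨ w = v) (hw' : w' = u' ∨ w' = v') :
    (Sg G b (insert w T) ↔ Sg G b (insert w' T)) ∧
    (∀ i j, i ≠ v → i ≠ u' → j ≠ v → j ≠ u' → (Bef G b (insert w T) i j ↔ Bef G b (insert w' T) i j)) ∧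
    (Bef G b (insert w T) u v ↔ Bef G b (insert w' T) u' v') ∧
    (Bef G b (insert w T) v u ↔ Bef G b (insert w' T) v' u') := by
  have h := sl_of G ho hu hv hv' hn h1 h2 h3 h4 tu tv tu' tv' hw hw'
  refine ⟨⟨h.sg hb1 hb2, h.symm.sg hb2 hb1⟩, fun i j hi1 hi2 hj1 hj2 => h.be hb1 hb2 hi1 hi2 hj1 hj2, ?_, ?_⟩
  · show Be _ _ _ _ ↔ Be _ _ _ _
    rw [h.be_v hb1 h2, h.symm.v_be hb2 h.uv'.symm]
    exact h.be hb1 hb2 h.uv h.uu h.vv.symm h.uv'.symm
  · show Be _ _ _ _ ↔ Be _ _ _ _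
    rw [h.v_be hb1 h.uv, h.symm.be_v hb2 h.uw.symm]
    exact h.be hb1 hb2 h.vv.symm h.uv'.symm h.uv h.uu

end Pool.Agent.Helper30.TW
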